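import Pool.Agent.H85.Fold.Sgn
import Pool.Agent.H85.Fold.Comp

/-!
# Joins: operators on chains with coefficients in images of commuting orthogonal projections
-/

set_option autoImplicit false
set_option linter.unusedSectionVars false

open Finset

namespace Pool.Agent.H69.Join

open Pool.Agent.H85.Fold

variable {V : Type} [DecidableEq V] [Fintype V] {S : Type} [AddCommGroup S] [Module ℝ S]

/-- self-adjoint projections, commuting for adjacent vertices -/
structure IsPr (G : SimpleGraph V) (b : S →ₗ[ℝ] S →ₗ[ℝ] ℝ) (p : V → S →ₗ[ℝ] S) : Prop where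
  symm : ∀ x y, b x y = b y x
  nonneg : ∀ x, 0 ≤ b x x
  pos : ∀ x, b x x = 0 → x = 0
  adj : ∀ v x y, b (p v x) y = b x (p v y)
  idem : ∀ v x, p v (p v x) = p v x
  comm : ∀ u v, G.Adj u v → ∀ x, p u (p v x) = p v (p u x)

/-- chains on `Y` -/
structure IsK (G : SimpleGraph V) (p : V → S →ₗ[ℝ] S) (Y : Finset V) (c : Finset V → S) : Prop where
  supp : ∀ σ, c σ ≠ 0 → σ ⊆ Y ∧ Cl G σ
  inv : ∀ σ, ∀ v ∈ σ, p v (c σ) = c σ

/-- the boundary in the direction of `U` -/
def dU (ν : V → ℕ) (U : Finset V) : (Finset V → S) →ₗ[ℝ] (Finset V → S) where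
  toFun c ρ := ∑ v ∈ U, if v ∈ ρ then 0 else sgn ν v ρ • c (insert v ρ)
  map_add' c c' := by
    funext ρ
    rw [Pi.add_apply, ← Finset.sum_add_distrib]
    refine Finset.sum_congr rfl fun v _ => ?_
    by_cases h : v ∈ ρ <;> simp [h, smul_add]
  map_smul' r c := by
    funext ρ
    rw [Pi.smul_apply, Finset.smul_sum]
    refine Finset.sum_congr rfl fun v _ => ?_
    by_cases h : v ∈ ρ <;> simp [h, smul_comm r]

open Classical in
/-- the adjoint of the boundary in the direction of `U` -/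
noncomputable def eU (ν : V → ℕ) (G : SimpleGraph V) (p : V → S →ₗ[ℝ] S) (U : Finset V) :
    (Finset V → S) →ₗ[ℝ] (Finset V → S) where
  toFun c σ := if Cl G σ then
    ∑ v ∈ U, (if v ∈ σ then sgn ν v σ • p v (c (σ.erase v)) else 0) else 0
  map_add' c c' := by
    funext σ
    rw [Pi.add_apply]
    by_cases hσ : Cl G σ
    · simp only [hσ, if_true]
      rw [← Finset.sum_add_distrib]
      refine Finset.sum_congr rfl fun v _ => ?_
      by_cases h : v ∈ σ <;> simp [h, smul_add]
    · simp [hσ]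
  map_smul' r c := by
    funext σ
    rw [Pi.smul_apply]
    by_cases hσ : Cl G σ
    · simp only [hσ, if_true]
      rw [Finset.smul_sum]
      refine Finset.sum_congr rfl fun v _ => ?_
      by_cases h : v ∈ σ <;> simp [h, smul_comm r]
    · simp [hσ]

theorem dU_apply (ν : V → ℕ) (U : Finset V) (c : Finset V → S) (ρ : Finset V) :
    dU ν U c ρ = ∑ v ∈ U, if v ∈ ρ then 0 else sgn ν v ρ • c (insert v ρ) := rfl

theorem eU_apply (ν : V → ℕ) (G : SimpleGraph V) (p : V → S →ₗ[ℝ] S) (U : Finset V)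
    (c : Finset V → S) (σ : Finset V) (hσ : Cl G σ) :
    eU ν G p U c σ = ∑ v ∈ U, (if v ∈ σ then sgn ν v σ • p v (c (σ.erase v)) else 0) := by
  classical
  exact if_pos hσ

theorem eU_apply_not (ν : V → ℕ) (G : SimpleGraph V) (p : V → S →ₗ[ℝ] S) (U : Finset V)
    (c : Finset V → S) (σ : Finset V) (hσ : ¬ Cl G σ) :
    eU ν G p U c σ = 0 := by
  classical
  exact if_neg hσ

/-- the form on chains -/
def bC (b : S →ₗ[ℝ] S →ₗ[ℝ] ℝ) (c c' : Finset V → S) : ℝ := ∑ σ : Finset V, b (c σ) (c' σ)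

variable {G : SimpleGraph V} {b : S →ₗ[ℝ] S →ₗ[ℝ] ℝ} {p : V → S →ₗ[ℝ] S} {ν : V → ℕ}

theorem dU_union {A B : Finset V} (h : Disjoint A B) (c : Finset V → S) :
    dU ν (A ∪ B) c = dU ν A c + dU ν B c := by
  funext ρ
  rw [Pi.add_apply, dU_apply, dU_apply, dU_apply, Finset.sum_union h]

theorem eU_union {A B : Finset V} (h : Disjoint A B) (c : Finset V → S) :
    eU ν G p (A ∪ B) c = eU ν G p A c + eU ν G p B c := by
  funext σ
  rw [Pi.add_apply]
  by_cases hσ : Cl G σ
  · rw [eU_apply _ _ _ _ _ _ hσ, eU_apply _ _ _ _ _ _ hσ, eU_apply _ _ _ _ _ _ hσ,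
      Finset.sum_union h]
  · rw [eU_apply_not _ _ _ _ _ _ hσ, eU_apply_not _ _ _ _ _ _ hσ, eU_apply_not _ _ _ _ _ _ hσ,
      add_zero]

theorem dU_isK {Y U : Finset V} {c : Finset V → S} (hc : IsK G p Y c) : IsK G p Y (dU ν U c) := by
  constructor
  · intro σ hne
    rw [dU_apply] at hne
    obtain ⟨v, _, hv⟩ := Finset.exists_ne_zero_of_sum_ne_zero hne
    by_cases h : v ∈ σ
    · exact absurd (if_pos h) hv
    · rw [if_neg h] at hv
      have h1 : c (insert v σ) ≠ 0 := fun h0 => hv (by rw [h0, smul_zero])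
      obtain ⟨h2, h3⟩ := hc.supp _ h1
      exact ⟨fun u hu => h2 (Finset.mem_insert_of_mem hu), fun u hu w hw huw =>
        h3 u (Finset.mem_insert_of_mem hu) w (Finset.mem_insert_of_mem hw) huw⟩
  · intro σ u hu
    rw [dU_apply, map_sum]
    refine Finset.sum_congr rfl fun v _ => ?_
    by_cases h : v ∈ σ
    · rw [if_pos h, map_zero]
    · rw [if_neg h, map_smul, hc.inv _ u (Finset.mem_insert_of_mem hu)]

theorem eU_isK (hp : IsPr G b p) {Y U : Finset V} (hU : U ⊆ Y) {c : Finset V → S}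
    (hc : IsK G p Y c) : IsK G p Y (eU ν G p U c) := by
  constructor
  · intro σ hne
    by_cases hσ : Cl G σ
    · refine ⟨?_, hσ⟩
      rw [eU_apply _ _ _ _ _ _ hσ] at hne
      obtain ⟨v, hvU, hv⟩ := Finset.exists_ne_zero_of_sum_ne_zero hne
      by_cases h : v ∈ σ
      · rw [if_pos h] at hv
        have h1 : c (σ.erase v) ≠ 0 := fun h0 => hv (by rw [h0, map_zero, smul_zero])
        obtain ⟨h2, h3⟩ := hc.supp _ h1
        intro u hu
        by_cases huv : u = v
        · rw [huv]
          exact hU hvU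
        · exact h2 (Finset.mem_erase.2 ⟨huv, hu⟩)
      · exact absurd (if_neg h) hv
    · exact absurd (eU_apply_not _ _ _ _ _ _ hσ) hne
  · intro σ u hu
    by_cases hσ : Cl G σ
    · rw [eU_apply _ _ _ _ _ _ hσ, map_sum]
      refine Finset.sum_congr rfl fun v _ => ?_
      by_cases h : v ∈ σ
      · rw [if_pos h, map_smul]
        by_cases huv : u = v
        · rw [huv, hp.idem]
        · rw [hp.comm u v (hσ u hu v h huv), hc.inv _ u (Finset.mem_erase.2 ⟨huv, hu⟩)]
      · rw [if_neg h, map_zero]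
    · rw [eU_apply_not _ _ _ _ _ _ hσ, map_zero]

theorem bC_add_left (c c' c'' : Finset V → S) : bC b (c + c') c'' = bC b c c'' + bC b c' c'' := by
  unfold bC
  rw [← Finset.sum_add_distrib]
  refine Finset.sum_congr rfl fun σ _ => ?_
  rw [Pi.add_apply, map_add, LinearMap.add_apply]

theorem bC_neg_left (c c' : Finset V → S) : bC b (-c) c' = -bC b c c' := by
  unfold bC
  rw [← Finset.sum_neg_distrib]
  refine Finset.sum_congr rfl fun σ _ => ?_
  rw [Pi.neg_apply, map_neg, LinearMap.neg_apply]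

theorem bC_neg_right (c c' : Finset V → S) : bC b c (-c') = -bC b c c' := by
  unfold bC
  rw [← Finset.sum_neg_distrib]
  refine Finset.sum_congr rfl fun σ _ => ?_
  rw [Pi.neg_apply, map_neg]

theorem bC_symm (hp : IsPr G b p) (c c' : Finset V → S) : bC b c c' = bC b c' c :=
  Finset.sum_congr rfl fun _ _ => hp.symm _ _

theorem bC_nonneg (hp : IsPr G b p) (c : Finset V → S) : 0 ≤ bC b c c :=
  Finset.sum_nonneg fun _ _ => hp.nonneg _

theorem bC_pos (hp : IsPr G b p) (c : Finset V → S) (h : bC b c c = 0) : c = 0 := by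
  funext σ
  have h1 := (Finset.sum_eq_zero_iff_of_nonneg fun σ _ => hp.nonneg (c σ)).1 h σ
    (Finset.mem_univ σ)
  exact hp.pos _ h1

/-- adjointness -/
theorem bC_adj (hp : IsPr G b p) {Y U : Finset V} {c c' : Finset V → S} (hc : IsK G p Y c) : bC b (dU ν U c) c' = bC b c (eU ν G p U c') := by
  have e1 : bC b (dU ν U c) c' = ∑ v ∈ U, ∑ σ : Finset V,
      if v ∈ σ then 0 else sgn ν v σ * b (c (insert v σ)) (c' σ) := by
    unfold bC
    rw [Finset.sum_comm]
    refine Finset.sum_congr rfl fun σ _ => ?_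
    rw [dU_apply, map_sum, LinearMap.sum_apply]
    refine Finset.sum_congr rfl fun v _ => ?_
    by_cases h : v ∈ σ
    · rw [if_pos h, if_pos h, map_zero, LinearMap.zero_apply]
    · rw [if_neg h, if_neg h, map_smul, LinearMap.smul_apply, smul_eq_mul]
  have e2 : bC b c (eU ν G p U c') = ∑ v ∈ U, ∑ σ : Finset V,
      if v ∈ σ then sgn ν v σ * b (c σ) (c' (σ.erase v)) else 0 := by
    unfold bC
    rw [Finset.sum_comm]
    refine Finset.sum_congr rfl fun σ _ => ?_
    by_cases hσ : Cl G σ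
    · rw [eU_apply _ _ _ _ _ _ hσ, map_sum]
      refine Finset.sum_congr rfl fun v _ => ?_
      by_cases h : v ∈ σ
      · rw [if_pos h, if_pos h, map_smul, ← hp.adj, hc.inv σ v h, smul_eq_mul]
      · rw [if_neg h, if_neg h, map_zero]
    · have h0 : c σ = 0 := by
        by_contra h
        exact hσ (hc.supp _ h).2
      rw [h0, map_zero, LinearMap.zero_apply, Finset.sum_eq_zero]
      intro v _
      rw [LinearMap.zero_apply, mul_zero, ite_self]
  rw [e1, e2]
  refine Finset.sum_congr rfl fun v _ => ?_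
  rw [Finset.sum_ite, Finset.sum_ite, Finset.sum_const_zero, Finset.sum_const_zero, zero_add,
    add_zero]
  refine Finset.sum_nbij' (fun σ => insert v σ) (fun σ => σ.erase v) ?_ ?_ ?_ ?_ ?_
  · intro σ _
    exact Finset.mem_filter.2 ⟨Finset.mem_univ _, Finset.mem_insert_self _ _⟩
  · intro σ _
    exact Finset.mem_filter.2 ⟨Finset.mem_univ _, Finset.notMem_erase _ _⟩
  · intro σ hσ
    exact Finset.erase_insert (Finset.mem_filter.1 hσ).2
  · intro σ hσ
    exact Finset.insert_erase (Finset.mem_filter.1 hσ).2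
  · intro σ hσ
    show _ = sgn ν v (insert v σ) * b (c (insert v σ)) (c' ((insert v σ).erase v))
    rw [Finset.erase_insert (Finset.mem_filter.1 hσ).2, sgn_insert_self]

theorem cl_of_insert_erase {A B : Finset V} (hAB : ∀ u ∈ A, ∀ v ∈ B, G.Adj u v) {u v : V}
    (hu : u ∈ A) (hv : v ∈ B) {σ : Finset V} (hvσ : u ∈ σ) (h1 : Cl G σ)
    (h2 : Cl G (insert v (σ.erase u))) : Cl G (insert v σ) := by
  intro x hx y hy hxy
  by_cases hxu : x = u
  · subst hxu
    rcases Finset.mem_insert.1 hy with h | h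
    · rw [h]
      exact hAB x hu v hv
    · exact h1 x hvσ y h hxy
  · by_cases hyu : y = u
    · subst hyu
      rcases Finset.mem_insert.1 hx with h | h
      · rw [h]
        exact (hAB y hu v hv).symm
      · exact h1 x h y hvσ hxy
    · refine h2 x ?_ y ?_ hxy
      · rcases Finset.mem_insert.1 hx with h | h
        · rw [h]
          exact Finset.mem_insert_self _ _
        · exact Finset.mem_insert_of_mem (Finset.mem_erase.2 ⟨hxu, h⟩)
      · rcases Finset.mem_insert.1 hy with h | h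
        · rw [h]
          exact Finset.mem_insert_self _ _
        · exact Finset.mem_insert_of_mem (Finset.mem_erase.2 ⟨hyu, h⟩)

/-- anticommutation of the boundary in one direction and the coboundary in the other direction -/
theorem anticomm (hν : Function.Injective ν) {A B Y : Finset V} (hd : Disjoint A B)
    (hAB : ∀ u ∈ A, ∀ v ∈ B, G.Adj u v) {c : Finset V → S} (hc : IsK G p Y c) :
    eU ν G p A (dU ν B c) = -dU ν B (eU ν G p A c) := by
  classical
  funext σ
  rw [Pi.neg_apply]
  have hR : dU ν B (eU ν G p A c) σ = ∑ v ∈ B, ∑ u ∈ A,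
      if Cl G (insert v σ) ∧ u ∈ σ ∧ v ∉ σ then
        (sgn ν v σ * sgn ν u (insert v σ)) • p u (c ((insert v σ).erase u)) else 0 := by
    rw [dU_apply]
    refine Finset.sum_congr rfl fun v hv => ?_
    by_cases hvσ : v ∈ σ
    · rw [if_pos hvσ, Finset.sum_eq_zero]
      intro u _
      rw [if_neg (fun h => h.2.2 hvσ)]
    · rw [if_neg hvσ]
      by_cases hcl : Cl G (insert v σ)
      · rw [eU_apply _ _ _ _ _ _ hcl, Finset.smul_sum]
        refine Finset.sum_congr rfl fun u hu => ?_
        have huv : u ≠ v := fun h => (Finset.disjoint_left.1 hd hu) (h ▸ hv)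
        by_cases huσ : u ∈ σ
        · rw [if_pos (Finset.mem_insert_of_mem huσ), if_pos ⟨hcl, huσ, hvσ⟩, smul_smul]
        · rw [if_neg (fun h => huσ ((Finset.mem_insert.1 h).resolve_left huv)),
            if_neg (fun h => huσ h.2.1), smul_zero]
      · rw [eU_apply_not _ _ _ _ _ _ hcl, smul_zero, Finset.sum_eq_zero]
        intro u _
        rw [if_neg (fun h => hcl h.1)]
  have hL : eU ν G p A (dU ν B c) σ = ∑ v ∈ B, ∑ u ∈ A,
      if Cl G σ ∧ u ∈ σ ∧ v ∉ σ then
        (sgn ν u σ * sgn ν v (σ.erase u)) • p u (c (insert v (σ.erase u))) else 0 := by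
    by_cases hcl : Cl G σ
    · rw [eU_apply _ _ _ _ _ _ hcl, Finset.sum_comm]
      refine Finset.sum_congr rfl fun u hu => ?_
      by_cases huσ : u ∈ σ
      · rw [if_pos huσ, dU_apply, map_sum, Finset.smul_sum]
        refine Finset.sum_congr rfl fun v hv => ?_
        have huv : v ≠ u := fun h => (Finset.disjoint_left.1 hd hu) (h ▸ hv)
        by_cases hvσ : v ∈ σ
        · rw [if_pos (Finset.mem_erase.2 ⟨huv, hvσ⟩), if_neg (fun h => h.2.2 hvσ), map_zero,
            smul_zero]
        · rw [if_neg (fun h => hvσ (Finset.mem_of_mem_erase h)), if_pos ⟨hcl, huσ, hvσ⟩, map_smul,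
            smul_smul]
      · rw [if_neg huσ, Finset.sum_eq_zero]
        intro v _
        rw [if_neg (fun h => huσ h.2.1)]
    · rw [eU_apply_not _ _ _ _ _ _ hcl, Finset.sum_eq_zero]
      intro v _
      rw [Finset.sum_eq_zero]
      intro u _
      rw [if_neg (fun h => hcl h.1)]
  rw [hL, hR, ← Finset.sum_neg_distrib]
  refine Finset.sum_congr rfl fun v hv => ?_
  rw [← Finset.sum_neg_distrib]
  refine Finset.sum_congr rfl fun u hu => ?_
  have huv : u ≠ v := fun h => (Finset.disjoint_left.1 hd hu) (h ▸ hv)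
  by_cases huσ : u ∈ σ
  · by_cases hvσ : v ∈ σ
    · rw [if_neg (fun h => h.2.2 hvσ), if_neg (fun h => h.2.2 hvσ), neg_zero]
    · have e : (insert v σ).erase u = insert v (σ.erase u) :=
        Finset.erase_insert_of_ne (Ne.symm huv)
      rw [e]
      by_cases hz : c (insert v (σ.erase u)) = 0
      · rw [hz, map_zero, smul_zero, smul_zero, ite_self, ite_self, neg_zero]
      · have h2 := (hc.supp _ hz).2
        by_cases hcl : Cl G σ
        · have h3 : Cl G (insert v σ) := cl_of_insert_erase hAB hu hv huσ hcl h2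
          rw [if_pos ⟨hcl, huσ, hvσ⟩, if_pos ⟨h3, huσ, hvσ⟩, ← neg_smul,
            sgn_swap_mix ν hν u v huv σ huσ hvσ, neg_neg]
        · have h3 : ¬ Cl G (insert v σ) := fun h => hcl (fun x hx y hy hxy =>
            h x (Finset.mem_insert_of_mem hx) y (Finset.mem_insert_of_mem hy) hxy)
          rw [if_neg (fun h => hcl h.1), if_neg (fun h => h3 h.1), neg_zero]
  · rw [if_neg (fun h => huσ h.2.1), if_neg (fun h => huσ h.2.1), neg_zero]

/-- harmonic chains of joins are harmonic in both directions -/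
theorem harm_split (hp : IsPr G b p) (hν : Function.Injective ν) {A B : Finset V}
    (hd : Disjoint A B) (hAB : ∀ u ∈ A, ∀ v ∈ B, G.Adj u v) {z : Finset V → S}
    (hz : IsK G p (A ∪ B) z) (h1 : dU ν (A ∪ B) z = 0) (h2 : eU ν G p (A ∪ B) z = 0) :
    dU ν A z = 0 ∧ eU ν G p A z = 0 := by
  rw [dU_union hd] at h1
  rw [eU_union hd] at h2
  have e1 : dU ν A z = -dU ν B z := eq_neg_of_add_eq_zero_left h1
  have e2 : eU ν G p B z = -eU ν G p A z := eq_neg_of_add_eq_zero_right h2
  have hA : A ⊆ A ∪ B := Finset.subset_union_left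
  have k1 : bC b (dU ν A z) (dU ν A z) = -bC b (eU ν G p A z) (eU ν G p A z) := by
    calc bC b (dU ν A z) (dU ν A z) = -bC b (dU ν A z) (dU ν B z) := by
          conv_lhs => rw [e1]
          rw [bC_neg_left, bC_neg_right, neg_neg, e1, bC_neg_left, neg_neg]
      _ = -bC b z (eU ν G p A (dU ν B z)) := by rw [bC_adj hp hz]
      _ = bC b z (dU ν B (eU ν G p A z)) := by rw [anticomm hν hd hAB hz, bC_neg_right, neg_neg]
      _ = bC b (dU ν B (eU ν G p A z)) z := bC_symm hp _ _
      _ = bC b (eU ν G p A z) (eU ν G p B z) := bC_adj hp (eU_isK hp hA hz)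
      _ = -bC b (eU ν G p A z) (eU ν G p A z) := by rw [e2, bC_neg_right]
  have k2 := bC_nonneg hp (dU ν A z)
  have k3 := bC_nonneg hp (eU ν G p A z)
  constructor
  · exact bC_pos hp _ (by linarith)
  · exact bC_pos hp _ (by linarith)

end Pool.Agent.H69.Join
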