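import Pool.Agent.H69.Join.JoinA

/-!
# Joins: harmonic chains
-/

set_option autoImplicit false
set_option linter.unusedSectionVars false

open Finset

namespace Pool.Agent.H69.Join

open Pool.Agent.H85.Fold

variable {V : Type} [DecidableEq V] [Fintype V] {S : Type} [AddCommGroup S] [Module ℝ S]

/-- the form on chains, as a bilinear form -/
noncomputable def bF (b : S →ₗ[ℝ] S →ₗ[ℝ] ℝ) : LinearMap.BilinForm ℝ (Finset V → S) :=
  ∑ σ : Finset V, b.compl₁₂ (LinearMap.proj σ) (LinearMap.proj σ)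

theorem bF_apply (b : S →ₗ[ℝ] S →ₗ[ℝ] ℝ) (c c' : Finset V → S) : bF b c c' = bC b c c' := by
  unfold bF bC
  rw [LinearMap.sum_apply, LinearMap.sum_apply]
  rfl

/-- chains of degree `i` on `Y` -/
def Kd (G : SimpleGraph V) (p : V → S →ₗ[ℝ] S) (Y : Finset V) (i : ℕ) :
    Submodule ℝ (Finset V → S) where
  carrier := {c | IsK G p Y c ∧ ∀ σ, c σ ≠ 0 → σ.card = i}
  zero_mem' := ⟨⟨fun σ h => absurd rfl h, fun σ v _ => by simp⟩, fun σ h => absurd rfl h⟩
  add_mem' := by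
    rintro c c' ⟨h1, h2⟩ ⟨h3, h4⟩
    have key : ∀ σ, (c + c') σ ≠ 0 → c σ ≠ 0 ∨ c' σ ≠ 0 := by
      intro σ h
      by_contra h0
      rw [not_or, not_not, not_not] at h0
      exact h (by rw [Pi.add_apply, h0.1, h0.2, add_zero])
    refine ⟨⟨fun σ h => ?_, fun σ v hv => ?_⟩, fun σ h => ?_⟩
    · rcases key σ h with h | h
      · exact h1.supp σ h
      · exact h3.supp σ h
    · rw [Pi.add_apply, map_add, h1.inv σ v hv, h3.inv σ v hv]
    · rcases key σ h with h | h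
      · exact h2 σ h
      · exact h4 σ h
  smul_mem' := by
    rintro r c ⟨h1, h2⟩
    have key : ∀ σ, (r • c) σ ≠ 0 → c σ ≠ 0 := by
      intro σ h h0
      exact h (by rw [Pi.smul_apply, h0, smul_zero])
    refine ⟨⟨fun σ h => h1.supp σ (key σ h), fun σ v hv => ?_⟩, fun σ h => h2 σ (key σ h)⟩
    rw [Pi.smul_apply, map_smul, h1.inv σ v hv]

theorem mem_Kd {G : SimpleGraph V} {p : V → S →ₗ[ℝ] S} {Y : Finset V} {i : ℕ}
    {c : Finset V → S} : c ∈ Kd G p Y i ↔ IsK G p Y c ∧ ∀ σ, c σ ≠ 0 → σ.card = i := Iff.rfl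

/-- cycles -/
def Zd (ν : V → ℕ) (G : SimpleGraph V) (p : V → S →ₗ[ℝ] S) (Y : Finset V) (i : ℕ) :
    Submodule ℝ (Finset V → S) := Kd G p Y i ⊓ LinearMap.ker (dU ν Y)

/-- boundaries -/
def Bd (ν : V → ℕ) (G : SimpleGraph V) (p : V → S →ₗ[ℝ] S) (Y : Finset V) (i : ℕ) :
    Submodule ℝ (Finset V → S) := (Kd G p Y (i + 1)).map (dU ν Y)

/-- harmonic chains -/
noncomputable def Hm (ν : V → ℕ) (G : SimpleGraph V) (p : V → S →ₗ[ℝ] S) (Y : Finset V) (i : ℕ) :
    Submodule ℝ (Finset V → S) :=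
  Kd G p Y i ⊓ LinearMap.ker (dU ν Y) ⊓ LinearMap.ker (eU ν G p Y)

variable {G : SimpleGraph V} {b : S →ₗ[ℝ] S →ₗ[ℝ] ℝ} {p : V → S →ₗ[ℝ] S} {ν : V → ℕ}

theorem mem_Hm {Y : Finset V} {i : ℕ} {c : Finset V → S} : c ∈ Hm ν G p Y i ↔
    (c ∈ Kd G p Y i ∧ dU ν Y c = 0) ∧ eU ν G p Y c = 0 := Iff.rfl

theorem mem_Zd {Y : Finset V} {i : ℕ} {c : Finset V → S} : c ∈ Zd ν G p Y i ↔
    c ∈ Kd G p Y i ∧ dU ν Y c = 0 := Iff.rfl

/-- the boundary of all chains is the boundary in all directions -/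
theorem bd_eq_dU {Y : Finset V} {c : Finset V → S} (hc : IsK G p Y c) : bd ν c = dU ν Y c := by
  funext ρ
  show ∑ v ∈ ρᶜ, sgn ν v ρ • c (insert v ρ) = _
  rw [dU_apply]
  have e1 : ∑ v ∈ ρᶜ, sgn ν v ρ • c (insert v ρ) =
      ∑ v ∈ (Finset.univ : Finset V), if v ∈ ρ then 0 else sgn ν v ρ • c (insert v ρ) := by
    rw [← Finset.sum_subset (Finset.subset_univ ρᶜ)]
    · refine Finset.sum_congr rfl fun v hv => ?_
      rw [if_neg (Finset.mem_compl.1 hv)]
    · intro v _ hv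
      rw [if_pos (by_contra fun h => hv (Finset.mem_compl.2 h))]
  rw [e1]
  symm
  refine Finset.sum_subset (Finset.subset_univ Y) ?_
  intro v _ hv
  by_cases h : v ∈ ρ
  · rw [if_pos h]
  · rw [if_neg h]
    have h0 : c (insert v ρ) = 0 := by
      by_contra hne
      exact hv ((hc.supp _ hne).1 (Finset.mem_insert_self _ _))
    rw [h0, smul_zero]

theorem dU_dU (hν : Function.Injective ν) {Y : Finset V} {c : Finset V → S} (hc : IsK G p Y c) :
    dU ν Y (dU ν Y c) = 0 := by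
  rw [← bd_eq_dU (dU_isK hc), ← bd_eq_dU hc]
  exact bd_bd ν hν c

theorem dU_mem {Y : Finset V} {i : ℕ} {c : Finset V → S} (hc : c ∈ Kd G p Y (i + 1)) :
    dU ν Y c ∈ Kd G p Y i := by
  refine ⟨dU_isK hc.1, fun σ hne => ?_⟩
  rw [dU_apply] at hne
  obtain ⟨v, _, hv⟩ := Finset.exists_ne_zero_of_sum_ne_zero hne
  by_cases h : v ∈ σ
  · exact absurd (if_pos h) hv
  · rw [if_neg h] at hv
    have h1 : c (insert v σ) ≠ 0 := fun h0 => hv (by rw [h0, smul_zero])
    have h2 := hc.2 _ h1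
    rw [Finset.card_insert_of_notMem h] at h2
    omega

theorem eU_mem (hp : IsPr G b p) {Y : Finset V} {i : ℕ} {c : Finset V → S}
    (hc : c ∈ Kd G p Y i) : eU ν G p Y c ∈ Kd G p Y (i + 1) := by
  refine ⟨eU_isK hp (Finset.Subset.refl _) hc.1, fun σ hne => ?_⟩
  by_cases hσ : Cl G σ
  · rw [eU_apply _ _ _ _ _ _ hσ] at hne
    obtain ⟨v, _, hv⟩ := Finset.exists_ne_zero_of_sum_ne_zero hne
    by_cases h : v ∈ σ
    · rw [if_pos h] at hv
      have h1 : c (σ.erase v) ≠ 0 := fun h0 => hv (by rw [h0, map_zero, smul_zero])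
      have h2 := hc.2 _ h1
      rw [Finset.card_erase_of_mem h] at h2
      have := Finset.card_pos.2 ⟨v, h⟩
      omega
    · exact absurd (if_neg h) hv
  · exact absurd (eU_apply_not _ _ _ _ _ _ hσ) hne

theorem Bd_le_Zd (hν : Function.Injective ν) (Y : Finset V) (i : ℕ) :
    Bd ν G p Y i ≤ Zd ν G p Y i := by
  rintro _ ⟨c, hc, rfl⟩
  exact ⟨dU_mem hc, dU_dU hν hc.1⟩

variable [FiniteDimensional ℝ S]

/-- orthogonal projection -/
theorem exists_orth (hp : IsPr G b p) (W : Submodule ℝ (Finset V → S)) (z : Finset V → S) :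
    ∃ w ∈ W, ∀ u ∈ W, bC b u (z - w) = 0 := by
  have h1 : (bF (V := V) b).IsRefl := by
    intro x y h
    rw [bF_apply] at h ⊢
    rw [bC_symm hp]
    exact h
  have h2 : ((bF (V := V) b).restrict W).Nondegenerate := by
    constructor
    · intro x hx
      have := hx x
      rw [LinearMap.BilinForm.restrict_apply, LinearMap.domRestrict_apply, bF_apply] at this
      exact Subtype.ext (bC_pos hp _ this)
    · intro x hx
      have := hx x
      rw [LinearMap.BilinForm.restrict_apply, LinearMap.domRestrict_apply, bF_apply] at this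
      exact Subtype.ext (bC_pos hp _ this)
  have h3 := (bF (V := V) b).isCompl_orthogonal_of_restrict_nondegenerate h1 h2
  have h4 : z ∈ W ⊔ (bF (V := V) b).orthogonal W := by
    rw [h3.sup_eq_top]
    exact Submodule.mem_top
  obtain ⟨w, hw, w', hw', e⟩ := Submodule.mem_sup.1 h4
  refine ⟨w, hw, fun u hu => ?_⟩
  have h5 := hw' u hu
  have e' : z - w = w' := by rw [← e, add_sub_cancel_left]
  rw [e', ← bF_apply]
  exact h5

/-- Hodge theory, dimensions -/
theorem finrank_Hm (hp : IsPr G b p) (hν : Function.Injective ν) (Y : Finset V) (i : ℕ) :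
    Module.finrank ℝ (Zd ν G p Y i) =
      Module.finrank ℝ (Bd ν G p Y i) + Module.finrank ℝ (Hm ν G p Y i) := by
  have h1 : Bd ν G p Y i ⊔ Hm ν G p Y i = Zd ν G p Y i := by
    apply le_antisymm
    · refine sup_le (Bd_le_Zd hν Y i) ?_
      intro c hc
      exact hc.1
    · intro z hz
      obtain ⟨w, hw, hwz⟩ := exists_orth hp (Bd ν G p Y i) z
      have hz' : z - w ∈ Zd ν G p Y i := Submodule.sub_mem _ hz (Bd_le_Zd hν Y i hw)
      have hK : z - w ∈ Kd G p Y i := hz'.1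
      have he : eU ν G p Y (z - w) = 0 := by
        apply bC_pos hp
        have hm := eU_mem (ν := ν) hp hK
        have h2 := hwz _ ⟨_, hm, rfl⟩
        rw [bC_adj hp hm.1] at h2
        exact h2
      have e : z = w + (z - w) := by abel
      rw [e]
      exact Submodule.add_mem_sup hw ⟨hz', he⟩
  have h2 : Bd ν G p Y i ⊓ Hm ν G p Y i = ⊥ := by
    rw [eq_bot_iff]
    rintro _ ⟨⟨c, hc, rfl⟩, h⟩
    rw [Submodule.mem_bot]
    apply bC_pos hp
    rw [bC_adj hp hc.1, h.2]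
    unfold bC
    exact Finset.sum_eq_zero fun σ _ => by rw [Pi.zero_apply, map_zero]
  have h3 := Submodule.finrank_sup_add_finrank_inf_eq (Bd ν G p Y i) (Hm ν G p Y i)
  rw [h1, h2, finrank_bot, add_zero] at h3
  exact h3

end Pool.Agent.H69.Join
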