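import Pool.Agent.H69.Join.JoinB

/-!
# Joins: restriction of chains of a join to one factor
-/

set_option autoImplicit false
set_option linter.unusedSectionVars false

open Finset

namespace Pool.Agent.H69.Join

open Pool.Agent.H85.Fold

variable {V : Type} [DecidableEq V] [Fintype V] {S : Type} [AddCommGroup S] [Module ℝ S]

/-- a sign -/
def eps (ν : V → ℕ) (β α : Finset V) : ℝ := ∏ v ∈ α, sgn ν v β

theorem eps_sq (ν : V → ℕ) (β α : Finset V) : eps ν β α * eps ν β α = 1 := by
  unfold eps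
  rw [← Finset.prod_mul_distrib]
  exact Finset.prod_eq_one fun v _ => sgn_sq ν v β

theorem eps_insert (ν : V → ℕ) (β α : Finset V) (v : V) (hv : v ∉ α) :
    eps ν β (insert v α) = sgn ν v β * eps ν β α := Finset.prod_insert hv

theorem eps_erase (ν : V → ℕ) (β α : Finset V) (v : V) (hv : v ∈ α) :
    eps ν β α = sgn ν v β * eps ν β (α.erase v) := (Finset.mul_prod_erase α _ hv).symm

theorem sgn_union (ν : V → ℕ) (v : V) {α β : Finset V} (h : Disjoint α β) :
    sgn ν v (α ∪ β) = sgn ν v α * sgn ν v β := by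
  unfold sgn
  rw [Finset.filter_union, Finset.card_union_of_disjoint, pow_add]
  exact Finset.disjoint_filter_filter h

/-- the restriction of a chain of a join to the first factor, for a simplex `β` of the second
factor -/
def rB (ν : V → ℕ) (A β : Finset V) : (Finset V → S) →ₗ[ℝ] (Finset V → S) where
  toFun z α := if α ⊆ A then eps ν β α • z (α ∪ β) else 0
  map_add' c c' := by
    funext α
    by_cases h : α ⊆ A <;> simp [h, smul_add]
  map_smul' r c := by
    funext α
    by_cases h : α ⊆ A <;> simp [h, smul_comm r]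

theorem rB_pos (ν : V → ℕ) {A β α : Finset V} (z : Finset V → S) (h : α ⊆ A) :
    rB ν A β z α = eps ν β α • z (α ∪ β) := if_pos h

theorem rB_neg (ν : V → ℕ) {A β α : Finset V} (z : Finset V → S) (h : ¬ α ⊆ A) :
    rB ν A β z α = 0 := if_neg h

variable {G : SimpleGraph V} {b : S →ₗ[ℝ] S →ₗ[ℝ] ℝ} {p : V → S →ₗ[ℝ] S} {ν : V → ℕ}

theorem rB_mem {Y A β : Finset V} {i : ℕ} {z : Finset V → S} (hz : z ∈ Kd G p Y i)
    (hd : Disjoint A β) (hβ : β.card ≤ i) : rB ν A β z ∈ Kd G p A (i - β.card) := by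
  have key : ∀ α, rB ν A β z α ≠ 0 → α ⊆ A ∧ z (α ∪ β) ≠ 0 := by
    intro α hne
    by_cases h : α ⊆ A
    · rw [rB_pos ν z h] at hne
      exact ⟨h, fun h0 => hne (by rw [h0, smul_zero])⟩
    · exact absurd (rB_neg ν z h) hne
  refine ⟨⟨fun α hne => ?_, fun α v hv => ?_⟩, fun α hne => ?_⟩
  · obtain ⟨h1, h2⟩ := key α hne
    exact ⟨h1, fun u hu w hw huw => (hz.1.supp _ h2).2 u (Finset.mem_union_left _ hu) w
      (Finset.mem_union_left _ hw) huw⟩
  · by_cases h : α ⊆ A
    · rw [rB_pos ν z h, map_smul, hz.1.inv _ v (Finset.mem_union_left _ hv)]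
    · rw [rB_neg ν z h, map_zero]
  · obtain ⟨h1, h2⟩ := key α hne
    have h3 := hz.2 _ h2
    rw [Finset.card_union_of_disjoint (Finset.disjoint_of_subset_left h1 hd)] at h3
    omega

theorem rB_dU {A β : Finset V} (hd : Disjoint A β) (z : Finset V → S) :
    dU ν A (rB ν A β z) = rB ν A β (dU ν A z) := by
  funext α
  by_cases h : α ⊆ A
  · have hαβ : Disjoint α β := Finset.disjoint_of_subset_left h hd
    rw [rB_pos ν _ h, dU_apply, dU_apply, Finset.smul_sum]
    refine Finset.sum_congr rfl fun v hv => ?_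
    have hvβ : v ∉ β := Finset.disjoint_left.1 hd hv
    by_cases hvα : v ∈ α
    · rw [if_pos hvα, if_pos (Finset.mem_union_left _ hvα), smul_zero]
    · have h1 : v ∉ α ∪ β := by
        rw [Finset.mem_union, not_or]
        exact ⟨hvα, hvβ⟩
      have h2 : insert v α ⊆ A := Finset.insert_subset hv h
      rw [if_neg hvα, if_neg h1, rB_pos ν z h2, smul_smul, smul_smul, eps_insert ν β α v hvα,
        sgn_union ν v hαβ, Finset.insert_union]
      congr 1
      ring
  · rw [rB_neg ν _ h, dU_apply, Finset.sum_eq_zero]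
    intro v _
    by_cases hvα : v ∈ α
    · rw [if_pos hvα]
    · rw [if_neg hvα, rB_neg ν z (fun h2 => h (fun u hu => h2 (Finset.mem_insert_of_mem hu))),
        smul_zero]

theorem cl_union {A B : Finset V} (hAB : ∀ u ∈ A, ∀ v ∈ B, G.Adj u v) {α β : Finset V}
    (hα : α ⊆ A) (hβ : β ⊆ B) (h1 : Cl G α) (h2 : Cl G β) : Cl G (α ∪ β) := by
  intro x hx y hy hxy
  rcases Finset.mem_union.1 hx with hx | hx
  · rcases Finset.mem_union.1 hy with hy | hy
    · exact h1 x hx y hy hxy
    · exact hAB x (hα hx) y (hβ hy)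
  · rcases Finset.mem_union.1 hy with hy | hy
    · exact (hAB y (hα hy) x (hβ hx)).symm
    · exact h2 x hx y hy hxy

theorem rB_eU {A B β : Finset V} (hdAB : Disjoint A B) (hβ : β ⊆ B)
    (hAB : ∀ u ∈ A, ∀ v ∈ B, G.Adj u v) (hcl : Cl G β) (z : Finset V → S) :
    eU ν G p A (rB ν A β z) = rB ν A β (eU ν G p A z) := by
  have hd : Disjoint A β := Finset.disjoint_of_subset_right hβ hdAB
  funext α
  by_cases h : α ⊆ A
  · have hαβ : Disjoint α β := Finset.disjoint_of_subset_left h hd
    rw [rB_pos ν _ h]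
    by_cases hα : Cl G α
    · rw [eU_apply _ _ _ _ _ _ hα, eU_apply _ _ _ _ _ _ (cl_union hAB h hβ hα hcl),
        Finset.smul_sum]
      refine Finset.sum_congr rfl fun v hv => ?_
      have hvβ : v ∉ β := Finset.disjoint_left.1 hd hv
      by_cases hvα : v ∈ α
      · have h2 : α.erase v ⊆ A := fun u hu => h (Finset.mem_of_mem_erase hu)
        have e : (α ∪ β).erase v = α.erase v ∪ β := by
          rw [Finset.erase_union_distrib, Finset.erase_eq_of_notMem hvβ]
        rw [if_pos hvα, if_pos (Finset.mem_union_left _ hvα), rB_pos ν z h2, map_smul, smul_smul,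
          smul_smul, e, sgn_union ν v hαβ, eps_erase ν β α v hvα]
        congr 1
        have := sgn_sq ν v β
        calc sgn ν v α * eps ν β (α.erase v)
            = sgn ν v α * eps ν β (α.erase v) * (sgn ν v β * sgn ν v β) := by rw [this, mul_one]
          _ = sgn ν v β * eps ν β (α.erase v) * (sgn ν v α * sgn ν v β) := by ring
      · have h1 : v ∉ α ∪ β := by
          rw [Finset.mem_union, not_or]
          exact ⟨hvα, hvβ⟩
        rw [if_neg hvα, if_neg h1, smul_zero]
    · have h1 : ¬ Cl G (α ∪ β) := fun h0 => hα (fun x hx y hy hxy =>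
        h0 x (Finset.mem_union_left _ hx) y (Finset.mem_union_left _ hy) hxy)
      rw [eU_apply_not _ _ _ _ _ _ hα, eU_apply_not _ _ _ _ _ _ h1, smul_zero]
  · rw [rB_neg ν _ h]
    by_cases hα : Cl G α
    · rw [eU_apply _ _ _ _ _ _ hα, Finset.sum_eq_zero]
      intro v hv
      by_cases hvα : v ∈ α
      · rw [if_pos hvα, rB_neg ν z, map_zero, smul_zero]
        intro h2
        apply h
        rw [← Finset.insert_erase hvα]
        exact Finset.insert_subset hv h2
      · rw [if_neg hvα]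
    · rw [eU_apply_not _ _ _ _ _ _ hα]

/-- the restriction of a harmonic chain of a join is harmonic -/
theorem rB_harm (hp : IsPr G b p) (hν : Function.Injective ν) {A B β : Finset V}
    (hdAB : Disjoint A B) (hβ : β ⊆ B) (hAB : ∀ u ∈ A, ∀ v ∈ B, G.Adj u v) {i : ℕ}
    {z : Finset V → S} (hz : z ∈ Hm ν G p (A ∪ B) i) (hi : β.card ≤ i) :
    rB ν A β z ∈ Hm ν G p A (i - β.card) := by
  have hd : Disjoint A β := Finset.disjoint_of_subset_right hβ hdAB
  obtain ⟨⟨h1, h2⟩, h3⟩ := mem_Hm.1 hz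
  by_cases hcl : Cl G β
  · obtain ⟨k1, k2⟩ := harm_split hp hν hdAB hAB h1.1 h2 h3
    refine mem_Hm.2 ⟨⟨rB_mem h1 hd hi, ?_⟩, ?_⟩
    · rw [rB_dU hd, k1, map_zero]
    · rw [rB_eU hdAB hβ hAB hcl, k2, map_zero]
  · have h0 : rB ν A β z = 0 := by
      funext α
      by_cases h : α ⊆ A
      · have hz0 : z (α ∪ β) = 0 := by
          by_contra hne
          exact hcl (fun x hx y hy hxy => (h1.1.supp _ hne).2 x (Finset.mem_union_right _ hx) y
            (Finset.mem_union_right _ hy) hxy)
        rw [rB_pos ν z h, hz0, smul_zero]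
        rfl
      · rw [rB_neg ν z h]
        rfl
    rw [h0]
    exact Submodule.zero_mem _

variable [FiniteDimensional ℝ S]

open Classical in
/-- **The dimension of the harmonic chains of a join.** -/
theorem finrank_join_le (hp : IsPr G b p) (hν : Function.Injective ν) {A B : Finset V}
    (hd : Disjoint A B) (hAB : ∀ u ∈ A, ∀ v ∈ B, G.Adj u v) (i : ℕ) (Q : ℕ → Prop) :
    Module.finrank ℝ (Hm ν G p (A ∪ B) i) ≤
      ∑ β ∈ B.powerset.filter (fun β => β.card ≤ i ∧ Q (i - β.card)),
        Module.finrank ℝ (Hm ν G p A (i - β.card)) +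
      ∑ α ∈ A.powerset.filter (fun α => α.card ≤ i ∧ ¬ Q α.card),
        Module.finrank ℝ (Hm ν G p B (i - α.card)) := by
  set F1 := B.powerset.filter (fun β => β.card ≤ i ∧ Q (i - β.card)) with hF1
  set F2 := A.powerset.filter (fun α => α.card ≤ i ∧ ¬ Q α.card) with hF2
  have hBA : ∀ u ∈ B, ∀ v ∈ A, G.Adj u v := fun u hu v hv => (hAB v hv u hu).symm
  have m1 : ∀ (β : F1) (z : Hm ν G p (A ∪ B) i),
      ((rB ν A β.1).comp (Submodule.subtype _)) z ∈ Hm ν G p A (i - β.1.card) := by
    rintro ⟨β, hβ⟩ ⟨z, hz⟩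
    rw [hF1, Finset.mem_filter, Finset.mem_powerset] at hβ
    exact rB_harm hp hν hd hβ.1 hAB hz hβ.2.1
  have m2 : ∀ (α : F2) (z : Hm ν G p (A ∪ B) i),
      ((rB ν B α.1).comp (Submodule.subtype _)) z ∈ Hm ν G p B (i - α.1.card) := by
    rintro ⟨α, hα⟩ ⟨z, hz⟩
    rw [hF2, Finset.mem_filter, Finset.mem_powerset] at hα
    rw [Finset.union_comm] at hz
    exact rB_harm hp hν hd.symm hα.1 hBA hz hα.2.1
  let Φ : Hm ν G p (A ∪ B) i →ₗ[ℝ] (∀ β : F1, Hm ν G p A (i - β.1.card)) ×
      (∀ α : F2, Hm ν G p B (i - α.1.card)) :=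
    LinearMap.prod (LinearMap.pi fun β => LinearMap.codRestrict _ _ (m1 β))
      (LinearMap.pi fun α => LinearMap.codRestrict _ _ (m2 α))
  have hΦ : Function.Injective Φ := by
    rw [injective_iff_map_eq_zero]
    rintro ⟨z, hz⟩ h0
    have h1 : ∀ β ∈ F1, rB ν A β z = 0 := by
      intro β hβ
      have := congrFun (congrArg Prod.fst h0) ⟨β, hβ⟩
      exact congrArg Subtype.val this
    have h2 : ∀ α ∈ F2, rB ν B α z = 0 := by
      intro α hα
      have := congrFun (congrArg Prod.snd h0) ⟨α, hα⟩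
      exact congrArg Subtype.val this
    apply Subtype.ext
    show z = 0
    funext σ
    by_contra hne
    have hne' : z σ ≠ 0 := hne
    obtain ⟨⟨⟨hs, _⟩, _⟩, _⟩ := id hz
    have hσ := (hs.supp σ hne').1
    have hcard := hz.1.1.2 σ hne'
    have e1 : σ ∩ A ∪ σ ∩ B = σ := by
      rw [← Finset.inter_union_distrib_left]
      exact Finset.inter_eq_left.2 hσ
    have hdis : Disjoint (σ ∩ A) (σ ∩ B) :=
      Finset.disjoint_of_subset_left Finset.inter_subset_right
        (Finset.disjoint_of_subset_right Finset.inter_subset_right hd)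
    have e2 : (σ ∩ A).card + (σ ∩ B).card = i := by
      rw [← Finset.card_union_of_disjoint hdis, e1, hcard]
    by_cases hQ : Q (σ ∩ A).card
    · have hm : σ ∩ B ∈ F1 := by
        rw [hF1, Finset.mem_filter, Finset.mem_powerset]
        refine ⟨Finset.inter_subset_right, by omega, ?_⟩
        have : i - (σ ∩ B).card = (σ ∩ A).card := by omega
        rwa [this]
      have h3 := congrFun (h1 _ hm) (σ ∩ A)
      rw [rB_pos ν z Finset.inter_subset_right, e1] at h3
      have h4 : eps ν (σ ∩ B) (σ ∩ A) • eps ν (σ ∩ B) (σ ∩ A) • z σ = 0 := by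
        rw [h3]
        exact smul_zero _
      rw [smul_smul, eps_sq, one_smul] at h4
      exact hne' h4
    · have hm : σ ∩ A ∈ F2 := by
        rw [hF2, Finset.mem_filter, Finset.mem_powerset]
        exact ⟨Finset.inter_subset_right, by omega, hQ⟩
      have h3 := congrFun (h2 _ hm) (σ ∩ B)
      rw [rB_pos ν z Finset.inter_subset_right, Finset.union_comm, e1] at h3
      have h4 : eps ν (σ ∩ A) (σ ∩ B) • eps ν (σ ∩ A) (σ ∩ B) • z σ = 0 := by
        rw [h3]
        exact smul_zero _
      rw [smul_smul, eps_sq, one_smul] at h4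
      exact hne' h4
  have h1 := LinearMap.finrank_le_finrank_of_injective hΦ
  rw [Module.finrank_prod, Module.finrank_pi_fintype, Module.finrank_pi_fintype] at h1
  rw [← Finset.sum_coe_sort F1, ← Finset.sum_coe_sort F2]
  exact h1

end Pool.Agent.H69.Join
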