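import Pool.Agent.H69.Join.JoinC
import Pool.Agent.H85.Fold2.Defs

/-!
# Joins: the inequality for the Betti numbers of finite groups
-/

set_option autoImplicit false
set_option linter.unusedSectionVars false

open Finset

namespace Pool.Agent.H69.Join

open Pool.Agent.H85.Fold Pool.Agent.H85.Fold2
open Pool.Agent.H4.Singer (sg)

section

variable {P : Type} [Group P]

/-- antisymmetrization -/
noncomputable def pA (a : P) : (P → Unit → ℝ) →ₗ[ℝ] (P → Unit → ℝ) where
  toFun f := fun x => (1 / 2 : ℝ) • (f x - f (x * a))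
  map_add' f f' := by
    funext x
    simp only [Pi.add_apply, ← smul_add]
    congr 1
    abel
  map_smul' r f := by
    funext x
    simp only [Pi.smul_apply, RingHom.id_apply, ← smul_sub]
    rw [smul_comm]

theorem pA_apply (a : P) (f : P → Unit → ℝ) (x : P) :
    pA a f x = (1 / 2 : ℝ) • (f x - f (x * a)) := rfl

theorem pA_fix (a : P) (f : P → Unit → ℝ) : pA a f = f ↔ ∀ x, f (x * a) = -f x := by
  constructor
  · intro h x
    have h1 := congrFun h x
    rw [pA_apply] at h1
    funext u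
    have h2 := congrFun h1 u
    simp only [Pi.smul_apply, Pi.sub_apply, smul_eq_mul] at h2
    rw [Pi.neg_apply]
    linarith
  · intro h
    funext x u
    rw [pA_apply, h x]
    simp only [Pi.smul_apply, Pi.sub_apply, Pi.neg_apply, smul_eq_mul]
    ring

variable [Fintype P]

/-- the scalar product -/
noncomputable def bS : (P → Unit → ℝ) →ₗ[ℝ] (P → Unit → ℝ) →ₗ[ℝ] ℝ :=
  LinearMap.mk₂ ℝ (fun f h => ∑ x : P, f x () * h x ())
    (fun f f' h => by
      rw [← Finset.sum_add_distrib]
      exact Finset.sum_congr rfl fun x _ => by rw [Pi.add_apply, Pi.add_apply, add_mul])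
    (fun r f h => by
      rw [Finset.smul_sum]
      exact Finset.sum_congr rfl fun x _ => by
        rw [Pi.smul_apply, Pi.smul_apply, smul_eq_mul, smul_eq_mul, mul_assoc])
    (fun f h h' => by
      rw [← Finset.sum_add_distrib]
      exact Finset.sum_congr rfl fun x _ => by rw [Pi.add_apply, Pi.add_apply, mul_add])
    (fun r f h => by
      rw [Finset.smul_sum]
      exact Finset.sum_congr rfl fun x _ => by
        rw [Pi.smul_apply, Pi.smul_apply, smul_eq_mul, smul_eq_mul]
        ring)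

theorem bS_apply (f h : P → Unit → ℝ) : bS f h = ∑ x : P, f x () * h x () := rfl

end

variable {V : Type} [DecidableEq V] [Fintype V] {P : Type} [Group P] [Fintype P]

theorem isPr (G : SimpleGraph V) (g : V → P) (hg : ∀ v, g v * g v = 1)
    (hgc : ∀ u v, G.Adj u v → g u * g v = g v * g u) :
    IsPr G (bS (P := P)) (fun v => pA (g v)) := by
  refine ⟨?_, ?_, ?_, ?_, ?_, ?_⟩
  · intro x y
    rw [bS_apply, bS_apply]
    exact Finset.sum_congr rfl fun _ _ => mul_comm _ _
  · intro x
    rw [bS_apply]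
    exact Finset.sum_nonneg fun _ _ => mul_self_nonneg _
  · intro x h
    rw [bS_apply] at h
    funext a u
    have h1 := (Finset.sum_eq_zero_iff_of_nonneg fun a _ => mul_self_nonneg (x a ())).1 h a
      (Finset.mem_univ a)
    exact mul_self_eq_zero.1 h1
  · intro v f h
    rw [bS_apply, bS_apply]
    have e1 : ∑ x : P, pA (g v) f x () * h x () =
        1 / 2 * ∑ x : P, f x () * h x () - 1 / 2 * ∑ x : P, f (x * g v) () * h x () := by
      rw [Finset.mul_sum, Finset.mul_sum, ← Finset.sum_sub_distrib]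
      refine Finset.sum_congr rfl fun x _ => ?_
      rw [pA_apply]
      simp only [Pi.smul_apply, Pi.sub_apply, smul_eq_mul]
      ring
    have e2 : ∑ x : P, f x () * pA (g v) h x () =
        1 / 2 * ∑ x : P, f x () * h x () - 1 / 2 * ∑ x : P, f x () * h (x * g v) () := by
      rw [Finset.mul_sum, Finset.mul_sum, ← Finset.sum_sub_distrib]
      refine Finset.sum_congr rfl fun x _ => ?_
      rw [pA_apply]
      simp only [Pi.smul_apply, Pi.sub_apply, smul_eq_mul]
      ring
    rw [e1, e2]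
    have e3 : ∑ x : P, f (x * g v) () * h x () = ∑ x : P, f x () * h (x * g v) () := by
      rw [← Equiv.sum_comp (Equiv.mulRight (g v)) (fun x => f x () * h (x * g v) ())]
      refine Finset.sum_congr rfl fun x _ => ?_
      rw [Equiv.coe_mulRight, mul_assoc x, hg v, mul_one]
    rw [e3]
  · intro v f
    rw [pA_fix]
    intro x
    rw [pA_apply, pA_apply, mul_assoc, hg v, mul_one, ← smul_neg, neg_sub]
  · intro u v huv f
    funext x
    simp only [pA_apply]
    rw [mul_assoc, mul_assoc, hgc u v huv]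
    simp only [smul_sub]
    abel

theorem Kd_eq (G : SimpleGraph V) (g : V → P) (Y : Finset V) (i : ℕ) :
    Kd G (fun v => pA (g v)) Y i =
      YCh ℝ G Y (fun _ => (1 : Matrix Unit Unit ℝ)) (fun v x => x * g v) i := by
  ext c
  constructor
  · rintro ⟨h1, h2⟩
    refine ⟨fun σ ω hne => ?_, fun σ v hv ω => ?_⟩
    · have hne' : c σ ≠ 0 := fun h0 => hne (by rw [h0]; rfl)
      exact ⟨(h1.supp σ hne').1, (h1.supp σ hne').2, h2 σ hne'⟩
    · rw [Matrix.one_mulVec]
      exact (pA_fix (g v) (c σ)).1 (h1.inv σ v hv) ω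
  · rintro ⟨h1, h2⟩
    have key : ∀ σ, c σ ≠ 0 → σ ⊆ Y ∧ Cl G σ ∧ σ.card = i := by
      intro σ hne
      obtain ⟨ω, hω⟩ := Function.ne_iff.1 hne
      exact h1 σ ω hω
    refine ⟨⟨fun σ hne => ⟨(key σ hne).1, (key σ hne).2.1⟩, fun σ v hv => ?_⟩,
      fun σ hne => (key σ hne).2.2⟩
    refine (pA_fix (g v) (c σ)).2 fun x => ?_
    have := h2 σ v hv x
    rwa [Matrix.one_mulVec] at this

theorem tdl_eq (ν : V → ℕ) (f : Finset V → P → Unit → ℝ) : tdl ℝ ν f = bd ν f := by
  funext τ ω
  show ∑ v ∈ τᶜ, (sg ν v τ : ℝ) • f (insert v τ) ω = (∑ v ∈ τᶜ, sgn ν v τ • f (insert v τ)) ω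
  rw [Finset.sum_apply]
  refine Finset.sum_congr rfl fun v _ => ?_
  have : (sg ν v τ : ℝ) = sgn ν v τ := by
    unfold sg sgn
    push_cast
    rfl
  rw [this]
  rfl

theorem bP_eq (ν : V → ℕ) (hν : Function.Injective ν) (G : SimpleGraph V) (Y : Finset V)
    (g : V → P) (hg : ∀ v, g v * g v = 1) (hgc : ∀ u v, G.Adj u v → g u * g v = g v * g u)
    (i : ℕ) : bP ℝ G Y g ν i = Module.finrank ℝ (Hm ν G (fun v => pA (g v)) Y i) := by
  have hZ : YZ ℝ G Y (fun _ => (1 : Matrix Unit Unit ℝ)) (fun v x => x * g v) ν i =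
      Zd ν G (fun v => pA (g v)) Y i := by
    unfold YZ Zd
    rw [← Kd_eq]
    ext c
    simp only [Submodule.mem_inf, LinearMap.mem_ker]
    constructor
    · rintro ⟨h1, h2⟩
      refine ⟨h1, ?_⟩
      rw [tdl_eq] at h2
      rw [← bd_eq_dU h1.1]
      exact h2
    · rintro ⟨h1, h2⟩
      refine ⟨h1, ?_⟩
      rw [tdl_eq, bd_eq_dU h1.1]
      exact h2
  have hB : YB ℝ G Y (fun _ => (1 : Matrix Unit Unit ℝ)) (fun v x => x * g v) ν i =
      Bd ν G (fun v => pA (g v)) Y i := by
    unfold YB Bd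
    rw [← Kd_eq]
    ext c
    constructor
    · rintro ⟨h, hh, rfl⟩
      refine ⟨h, hh, ?_⟩
      rw [tdl_eq, bd_eq_dU hh.1]
    · rintro ⟨h, hh, rfl⟩
      refine ⟨h, hh, ?_⟩
      rw [tdl_eq, bd_eq_dU hh.1]
  unfold bP bY
  rw [hZ, hB, finrank_Hm (isPr G g hg hgc) hν Y i, Nat.add_sub_cancel_left]

open Classical in
/-- **The Betti numbers of a join.** -/
theorem bP_join_le (ν : V → ℕ) (hν : Function.Injective ν) (G : SimpleGraph V) {A B : Finset V}
    (hd : Disjoint A B) (hAB : ∀ u ∈ A, ∀ v ∈ B, G.Adj u v) (g : V → P)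
    (hg : ∀ v, g v * g v = 1) (hgc : ∀ u v, G.Adj u v → g u * g v = g v * g u) (i : ℕ)
    (Q : ℕ → Prop) :
    bP ℝ G (A ∪ B) g ν i ≤
      ∑ β ∈ B.powerset.filter (fun β => β.card ≤ i ∧ Q (i - β.card)),
        bP ℝ G A g ν (i - β.card) +
      ∑ α ∈ A.powerset.filter (fun α => α.card ≤ i ∧ ¬ Q α.card),
        bP ℝ G B g ν (i - α.card) := by
  simp only [bP_eq ν hν G _ g hg hgc]
  exact finrank_join_le (isPr G g hg hgc) hν hd hAB i Q

end Pool.Agent.H69.Join
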