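import Pool.Agent.H69.Join.JoinD

/-!
# Joins: zero growth
-/

set_option autoImplicit false
set_option linter.unusedSectionVars false

open Finset

namespace Pool.Agent.H69.Join

open Pool.Agent.H85.Fold Pool.Agent.H85.Fold2

variable {V : Type} [DecidableEq V] [Fintype V]

/-- zero growth of a function of finite groups with elements indexed by the vertices -/
def GVF (G : SimpleGraph V) (F : ∀ (P : Type) [Group P] [Fintype P], (V → P) → ℕ) : Prop :=
  ∃ (m : ℕ) (ρ : Fin m → IMod G), ∀ η : ℝ, 0 < η → ∃ p₀ : ℕ, ∀ (p : ℕ) [Fact p.Prime],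
    p₀ ≤ p → ∀ (P : Type) [Group P] [Fintype P] (g : V → P), (∀ v, g v * g v = 1) →
      (∀ u v, G.Adj u v → g u * g v = g v * g u) →
      (∀ k, ∃ r : P →* Matrix (ρ k).D (ρ k).D (ZMod p),
        ∀ v, r (g v) = ((ρ k).A v).map (Int.cast : ℤ → ZMod p)) →
      (F P g : ℝ) ≤ η * Fintype.card P

variable {G : SimpleGraph V} {ν : V → ℕ}

/-- the Betti numbers -/
noncomputable def FY (ν : V → ℕ) (G : SimpleGraph V) (Y : Finset V) (i : ℕ) :
    ∀ (P : Type) [Group P] [Fintype P], (V → P) → ℕ := fun _ _ _ g => bP ℝ G Y g ν i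

theorem gvan_iff (Y : Finset V) (i : ℕ) :
    GVan ν G Y i ↔ GVF G (FY ν G Y i) := Iff.rfl

theorem GVF.zero : GVF G (fun _ _ _ _ => 0) := by
  refine ⟨0, Fin.elim0, fun η hη => ⟨0, ?_⟩⟩
  intro p hp _ P _ _ g hg hgc _
  rw [Nat.cast_zero]
  positivity

theorem GVF.mono {F F' : ∀ (P : Type) [Group P] [Fintype P], (V → P) → ℕ} (h : GVF G F)
    (hle : ∀ (P : Type) [Group P] [Fintype P] (g : V → P), (∀ v, g v * g v = 1) →
      (∀ u v, G.Adj u v → g u * g v = g v * g u) → F' P g ≤ F P g) : GVF G F' := by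
  obtain ⟨m, ρ, H⟩ := h
  refine ⟨m, ρ, fun η hη => ?_⟩
  obtain ⟨p₀, K⟩ := H η hη
  refine ⟨p₀, ?_⟩
  intro p hp hpp P _ _ g hg hgc hr
  refine le_trans ?_ (K p hpp P g hg hgc hr)
  exact_mod_cast hle P g hg hgc

theorem GVF.add {F F' : ∀ (P : Type) [Group P] [Fintype P], (V → P) → ℕ} (h1 : GVF G F)
    (h2 : GVF G F') : GVF G (fun P _ _ g => F P g + F' P g) := by
  obtain ⟨m₁, ρ₁, H1⟩ := h1
  obtain ⟨m₂, ρ₂, H2⟩ := h2
  refine ⟨m₁ + m₂, Fin.append ρ₁ ρ₂, fun η hη => ?_⟩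
  obtain ⟨p₁, K1⟩ := H1 (η / 2) (by positivity)
  obtain ⟨p₂, K2⟩ := H2 (η / 2) (by positivity)
  refine ⟨max p₁ p₂, ?_⟩
  intro p hp hpp P _ _ g hg hgc hr
  have Q1 : ∀ k, ∃ r : P →* Matrix (ρ₁ k).D (ρ₁ k).D (ZMod p),
      ∀ v, r (g v) = ((ρ₁ k).A v).map (Int.cast : ℤ → ZMod p) := by
    intro k
    have := hr (Fin.castAdd m₂ k)
    rw [Fin.append_left] at this
    exact this
  have Q2 : ∀ k, ∃ r : P →* Matrix (ρ₂ k).D (ρ₂ k).D (ZMod p),
      ∀ v, r (g v) = ((ρ₂ k).A v).map (Int.cast : ℤ → ZMod p) := by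
    intro k
    have := hr (Fin.natAdd m₁ k)
    rw [Fin.append_right] at this
    exact this
  have R1 := K1 p ((le_max_left _ _).trans hpp) P g hg hgc Q1
  have R2 := K2 p ((le_max_right _ _).trans hpp) P g hg hgc Q2
  push_cast
  have e3 : η * (Fintype.card P : ℝ) = η / 2 * (Fintype.card P : ℝ) +
      η / 2 * (Fintype.card P : ℝ) := by ring
  rw [e3]
  exact add_le_add R1 R2

theorem GVF.sum {ι : Type} [DecidableEq ι] (s : Finset ι)
    (F : ι → ∀ (P : Type) [Group P] [Fintype P], (V → P) → ℕ) (h : ∀ k ∈ s, GVF G (F k)) :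
    GVF G (fun P _ _ g => ∑ k ∈ s, F k P g) := by
  induction s using Finset.induction_on with
  | empty =>
    refine GVF.zero.mono ?_
    intro P _ _ g _ _
    rw [Finset.sum_empty]
  | insert k s hk ih =>
    have h1 := ih fun j hj => h j (Finset.mem_insert_of_mem hj)
    have h2 := h k (Finset.mem_insert_self _ _)
    refine (h2.add h1).mono ?_
    intro P _ _ g _ _
    rw [Finset.sum_insert hk]

/-- **Joins.** Zero growth above the middle for a join: the homological dimension of the middle is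
`2 (a / 2) + 2 (b / 2)`; for odd `a` and `b` this is `a + b - 2`. -/
theorem gvan_join (hν : Function.Injective ν) {A B : Finset V}
    (hAB : ∀ u ∈ A, ∀ v ∈ B, G.Adj u v) {a b n : ℕ} (hn : 2 * (a / 2) + 2 * (b / 2) ≤ n)
    (hA : ∀ Z ⊆ A, ∀ i, a < 2 * i → GVan ν G Z i) (hB : ∀ Z ⊆ B, ∀ i, b < 2 * i → GVan ν G Z i) :
    ∀ Z ⊆ A ∪ B, ∀ i, n < 2 * i → GVan ν G Z i := by
  classical
  intro Z hZ i hi
  have hd : Disjoint (Z ∩ A) (Z ∩ B) := by
    rw [Finset.disjoint_left]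
    intro u hu hv
    exact G.loopless.irrefl u (hAB u (Finset.mem_inter.1 hu).2 u (Finset.mem_inter.1 hv).2)
  have hZe : Z = (Z ∩ A) ∪ (Z ∩ B) := by
    rw [← Finset.inter_union_distrib_left, Finset.inter_eq_left.2 hZ]
  have hAB' : ∀ u ∈ Z ∩ A, ∀ v ∈ Z ∩ B, G.Adj u v := fun u hu v hv =>
    hAB u (Finset.mem_inter.1 hu).2 v (Finset.mem_inter.1 hv).2
  rw [gvan_iff]
  set F1 := (Z ∩ B).powerset.filter (fun β => β.card ≤ i ∧ a < 2 * (i - β.card)) with hF1
  set F2 := (Z ∩ A).powerset.filter (fun α => α.card ≤ i ∧ ¬ a < 2 * α.card) with hF2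
  have h1 : ∀ β ∈ F1, GVF G (FY ν G (Z ∩ A) (i - β.card)) := by
    intro β hβ
    rw [hF1, Finset.mem_filter] at hβ
    rw [← gvan_iff]
    exact hA _ Finset.inter_subset_right _ hβ.2.2
  have h2 : ∀ α ∈ F2, GVF G (FY ν G (Z ∩ B) (i - α.card)) := by
    intro α hα
    rw [hF2, Finset.mem_filter] at hα
    rw [← gvan_iff]
    refine hB _ Finset.inter_subset_right _ ?_
    omega
  refine ((GVF.sum F1 (fun β => FY ν G (Z ∩ A) (i - β.card)) h1).add
    (GVF.sum F2 (fun α => FY ν G (Z ∩ B) (i - α.card)) h2)).mono ?_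
  intro P _ _ g hg hgc
  have h3 := bP_join_le ν hν G hd hAB' g hg hgc i (fun j => a < 2 * j)
  rw [← hZe] at h3
  unfold FY
  refine h3.trans (le_of_eq ?_)
  congr!

end Pool.Agent.H69.Join
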